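import Mathlib

namespace Pool.Agent.Results.MP_1abb56_al.Square

def WT (G : Type) [AddCommGroup G] : Prop :=
  ∀ x y : G, (∃ φ ψ : G →+ G, φ x = y ∧ ψ y = x) → ∃ η : G ≃+ G, η x = y

def Z (p : ℕ) : Subring ℚ where
  carrier := {x | Nat.Coprime x.den p}
  zero_mem' := by simp
  one_mem' := by simp
  add_mem' {a b} ha hb := Nat.Coprime.coprime_dvd_left (Rat.add_den_dvd a b) (Nat.Coprime.mul_left ha hb)
  mul_mem' {a b} ha hb := Nat.Coprime.coprime_dvd_left (Rat.mul_den_dvd a b) (Nat.Coprime.mul_left ha hb)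
  neg_mem' {a} ha := by simpa using ha

theorem inv_mem {p q : ℕ} (hp : p.Prime) (hq : q.Prime) (h : p ≠ q) : ((p : ℚ))⁻¹ ∈ Z q := by
  show Nat.Coprime _ _
  rw [Rat.inv_natCast_den_of_pos hp.pos]
  exact (Nat.coprime_primes hp hq).2 h

theorem int_of {x : ℚ} (h : ∀ p, p.Prime → x ∈ Z p) : ∃ n : ℤ, x = n := by
  refine ⟨x.num, (Rat.coe_int_num_of_den_eq_one ?_).symm⟩
  by_contra hx
  obtain ⟨p, hp, hd⟩ := Nat.exists_prime_and_dvd hx
  exact hp.one_lt.ne' (Nat.Coprime.eq_one_of_dvd (Nat.Coprime.symm (h p hp)) hd)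

theorem big (s : Finset ℚ) : ∃ N, ∀ p, N ≤ p → p.Prime → ∀ x ∈ s, x ∈ Z p := by
  refine ⟨s.sup Rat.den + 1, fun p hp pp x hx => ?_⟩
  have := Finset.le_sup (f := Rat.den) hx
  exact (Nat.coprime_of_lt_prime x.den_ne_zero (by omega) pp).symm

theorem zero_of {x : ℚ} {N : ℕ} (h : ∀ p : ℕ, N ≤ p → p.Prime → x * (p : ℚ)⁻¹ ∈ Z p) : x = 0 := by
  by_contra hx
  obtain ⟨M, hM⟩ := big {x⁻¹}
  obtain ⟨p, hp, pp⟩ := Nat.exists_infinite_primes (max M N)
  have h1 := (Z p).mul_mem (hM p (le_of_max_le_left hp) pp _ (Finset.mem_singleton_self _))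
    (h p (le_of_max_le_right hp) pp)
  rw [inv_mul_cancel_left₀ hx] at h1
  have h2 : Nat.Coprime _ _ := h1
  rw [Rat.inv_natCast_den_of_pos pp.pos, Nat.coprime_self] at h2
  exact pp.one_lt.ne' h2

def A : AddSubgroup (ℚ × ℚ) where
  carrier := {v | ∀ p : ℕ, p.Prime → p * v.1 ∈ Z p ∧ p * v.2 - v.1 ∈ Z p}
  zero_mem' p _ := by simp
  add_mem' {a b} ha hb p hp := ⟨by simpa [mul_add] using (Z p).add_mem (ha p hp).1 (hb p hp).1, by
    have := (Z p).add_mem (ha p hp).2 (hb p hp).2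
    rwa [show p * a.2 - a.1 + (p * b.2 - b.1) = p * (a + b).2 - (a + b).1 by simp; ring] at this⟩
  neg_mem' {a} ha p hp := ⟨by simpa using (ha p hp).1, by
    have := (Z p).neg_mem (ha p hp).2
    rwa [show -(p * a.2 - a.1) = p * (-a).2 - (-a).1 by simp; ring] at this⟩

def e (a b : ℤ) : A := ⟨(a, b), fun p _ => ⟨mul_mem (natCast_mem _ _) (intCast_mem _ _),
  sub_mem (mul_mem (natCast_mem _ _) (intCast_mem _ _)) (intCast_mem _ _)⟩⟩

theorem g_mem {p : ℕ} (hp : p.Prime) : ((p : ℚ)⁻¹, (p : ℚ)⁻¹ * (p : ℚ)⁻¹) ∈ A := fun q hq => by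
  by_cases h : p = q
  · subst h
    have : (p : ℚ) ≠ 0 := by exact_mod_cast hp.ne_zero
    simp [this]
  · have := inv_mem hp hq h
    exact ⟨mul_mem (natCast_mem _ _) this, sub_mem (mul_mem (natCast_mem _ _) (mul_mem this this)) this⟩

theorem h_mem {p : ℕ} (hp : p.Prime) : ((0 : ℚ), (p : ℚ)⁻¹) ∈ A := fun q hq => by
  by_cases h : p = q
  · subst h
    have : (p : ℚ) ≠ 0 := by exact_mod_cast hp.ne_zero
    simp [this]
  · simpa using mul_mem (natCast_mem _ q) (inv_mem hp hq h)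

theorem lin (φ : A →+ A) (v : A) : (φ v).1 = v.1.1 • (φ (e 1 0)).1 + v.1.2 • (φ (e 0 1)).1 := by
  have hm : ((v.1.1.den * v.1.2.den : ℕ) : ℚ) ≠ 0 := by
    exact_mod_cast mul_ne_zero v.1.1.den_ne_zero v.1.2.den_ne_zero
  have h : (v.1.1.den * v.1.2.den) • v = (v.1.1.num * v.1.2.den) • e 1 0 +
      (v.1.2.num * v.1.1.den) • e 0 1 := by
    ext
    · simp [e, ← Rat.mul_den_eq_num]; ring
    · simp [e, ← Rat.mul_den_eq_num]; ring
  have h2 := congrArg (fun x => (φ x).1) h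
  simp only [map_add, map_nsmul, map_zsmul, AddSubgroup.coe_add, AddSubgroup.coe_nsmul,
    AddSubgroup.coe_zsmul, ← Nat.cast_smul_eq_nsmul ℚ, ← Int.cast_smul_eq_zsmul ℚ] at h2
  apply smul_right_injective _ hm
  simp only [h2, smul_add, smul_smul]
  push_cast
  rw [← Rat.mul_den_eq_num, ← Rat.mul_den_eq_num]
  congr 2 <;> ring

theorem endo (φ : A →+ A) : ∃ a c : ℤ, ∀ v : A, (φ v).1 = (a * v.1.1, c * v.1.1 + a * v.1.2) := by
  obtain ⟨⟨α, γ⟩, h1⟩ : ∃ x, (φ (e 1 0)).1 = x := ⟨_, rfl⟩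
  obtain ⟨⟨β, δ⟩, h2⟩ : ∃ x, (φ (e 0 1)).1 = x := ⟨_, rfl⟩
  have hl := lin φ
  rw [h1, h2] at hl
  have G : ∀ p : ℕ, p.Prime → α + β * (p : ℚ)⁻¹ ∈ Z p ∧
      γ + (δ - α) * (p : ℚ)⁻¹ - β * (p : ℚ)⁻¹ * (p : ℚ)⁻¹ ∈ Z p := fun p hp => by
    have h := (φ ⟨_, g_mem hp⟩).2 p hp
    have : (p : ℚ) ≠ 0 := by exact_mod_cast hp.ne_zero
    rw [hl] at h
    simp only [Prod.smul_mk, Prod.mk_add_mk, smul_eq_mul] at h
    refine ⟨(congrArg (· ∈ Z p) ?_).mp h.1, (congrArg (· ∈ Z p) ?_).mp h.2⟩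
    · field_simp
    · field_simp; ring
  obtain ⟨N, hN⟩ := big {α, γ}
  obtain rfl : β = 0 := zero_of (N := N) fun p hp pp => by
    simpa using (Z p).sub_mem (G p pp).1 (hN p hp pp α (by simp))
  obtain rfl : δ = α := sub_eq_zero.1 (zero_of (N := N) fun p hp pp => by
    simpa using (Z p).sub_mem (G p pp).2 (hN p hp pp γ (by simp)))
  obtain ⟨a, rfl⟩ := int_of fun p pp => (by simpa using (G p pp).1 : δ ∈ Z p)
  obtain ⟨c, rfl⟩ := int_of fun p pp => (by simpa using (G p pp).2 : γ ∈ Z p)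
  exact ⟨a, c, fun v => by rw [hl]; simp [mul_comm]⟩

def mul (a c : ℤ) : A →+ A where
  toFun v := ⟨(a * v.1.1, c * v.1.1 + a * v.1.2), fun p hp => ⟨by
      have := (Z p).mul_mem (intCast_mem _ a) (v.2 p hp).1
      rwa [mul_left_comm] at this, by
      have := (Z p).add_mem ((Z p).mul_mem (intCast_mem _ c) (v.2 p hp).1)
        ((Z p).mul_mem (intCast_mem _ a) (v.2 p hp).2)
      exact (congrArg (· ∈ Z p) (by ring)).mp this⟩⟩
  map_zero' := by ext <;> simp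
  map_add' x y := by ext <;> simp <;> ring

theorem mul_apply (a c : ℤ) (v : A) : (mul a c v).1 = (a * v.1.1, c * v.1.1 + a * v.1.2) := rfl

theorem endo2 (φ : A × A →+ A) : ∃ a c b d : ℤ, ∀ u v : A,
    (φ (u, v)).1 = (a * u.1.1 + b * v.1.1, c * u.1.1 + a * u.1.2 + (d * v.1.1 + b * v.1.2)) := by
  obtain ⟨a, c, h1⟩ := endo (φ.comp (AddMonoidHom.inl _ _))
  obtain ⟨b, d, h2⟩ := endo (φ.comp (AddMonoidHom.inr _ _))
  refine ⟨a, c, b, d, fun u v => ?_⟩
  have : (u, v) = (u, 0) + (0, v) := by simp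
  rw [this, map_add, AddSubgroup.coe_add]
  exact congrArg₂ (· + ·) (h1 u) (h2 v)

theorem result : ∃ (G : Type) (_ : AddCommGroup G), IsAddTorsionFree G ∧ WT G ∧ ¬ WT (G × G) := by
  refine ⟨A, inferInstance, inferInstance, ?_, fun h => ?_⟩
  · rintro x _ ⟨φ, ψ, rfl, h⟩
    obtain ⟨a, c, h1⟩ := endo φ
    obtain ⟨b, d, h2⟩ := endo ψ
    by_cases hx : x = 0
    · exact ⟨AddEquiv.refl _, by simp [hx]⟩
    have h3 := congrArg Subtype.val h
    rw [h2, h1, Prod.ext_iff] at h3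
    simp only at h3
    have hab : (b : ℚ) * a = 1 := by
      by_contra hne
      have h4 : x.1.1 = 0 := (mul_eq_zero.1 (by linear_combination h3.1 :
        ((b : ℚ) * a - 1) * x.1.1 = 0)).resolve_left (sub_ne_zero.2 hne)
      have h5 : x.1.2 = 0 := (mul_eq_zero.1 (by linear_combination h3.2 - (d * a + b * c) * h4 :
        ((b : ℚ) * a - 1) * x.1.2 = 0)).resolve_left (sub_ne_zero.2 hne)
      exact hx (Subtype.ext (Prod.ext h4 h5))
    refine ⟨AddMonoidHom.toAddEquiv φ (mul b (-(b * b * c))) ?_ ?_, rfl⟩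
    · ext v
      · simp only [AddMonoidHom.comp_apply, mul_apply, h1, AddMonoidHom.id_apply]
        linear_combination v.1.1 * hab
      · simp only [AddMonoidHom.comp_apply, mul_apply, h1, AddMonoidHom.id_apply]
        push_cast
        linear_combination (v.1.2 - b * c * v.1.1) * hab
    · ext v
      · simp only [AddMonoidHom.comp_apply, mul_apply, h1, AddMonoidHom.id_apply]
        linear_combination v.1.1 * hab
      · simp only [AddMonoidHom.comp_apply, mul_apply, h1, AddMonoidHom.id_apply]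
        push_cast
        linear_combination (v.1.2 - b * c * v.1.1) * hab
  · obtain ⟨η, hη⟩ := h (e 5 0, e 0 1) (e 5 0, e 0 2) ⟨(AddMonoidHom.id _).prodMap (mul 2 0),
      (AddMonoidHom.fst _ _).prod ((mul 0 1).coprod (mul (-2) 0)),
      by ext <;> simp [mul_apply, e], by ext <;> simp [mul_apply, e]; norm_num⟩
    obtain ⟨a, c, b, d, h1⟩ := endo2 ((AddMonoidHom.fst _ _).comp η.toAddMonoidHom)
    obtain ⟨a', c', b', d', h2⟩ := endo2 ((AddMonoidHom.snd _ _).comp η.toAddMonoidHom)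
    obtain ⟨s, t, u, w, h3⟩ := endo2 ((AddMonoidHom.snd _ _).comp η.symm.toAddMonoidHom)
    simp only [AddMonoidHom.comp_apply, AddEquiv.coe_toAddMonoidHom, AddMonoidHom.coe_fst,
      AddMonoidHom.coe_snd] at h1 h2 h3
    have e1 := h1 (e 5 0) (e 0 1)
    have e2 := h2 (e 5 0) (e 0 1)
    have e3 := h3 (η (e 0 1, 0)).1 (η (e 0 1, 0)).2
    have e4 := h3 (η (0, e 0 1)).1 (η (0, e 0 1)).2
    rw [hη] at e1 e2
    rw [h1, h2, Prod.mk.eta, AddEquiv.symm_apply_apply] at e3 e4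
    simp only [e, Prod.ext_iff, ZeroMemClass.coe_zero, Prod.fst_zero, Prod.snd_zero] at e1 e2 e3 e4
    norm_num at e1 e2 e3 e4
    have f1 : a = 1 := by exact_mod_cast e1.1
    have f2 : a' = 0 := e2.1
    have f3 : 2 = c' * 5 + b' := by exact_mod_cast e2.2
    have f4 : 0 = s * a + u * a' := by exact_mod_cast e3
    have f5 : 1 = s * b + u * b' := by exact_mod_cast e4
    subst f1 f2
    obtain rfl : s = 0 := by omega
    have := Int.eq_one_or_neg_one_of_mul_eq_one' (by linarith : u * b' = 1)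
    omega

end Pool.Agent.Results.MP_1abb56_al.Square
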